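import Mathlib
import Pool.Agent.N546.PN.Stm

set_option autoImplicit false

/-! # Open mapping for the values of forms -/

namespace Pool.Agent.N327.PN

open Pool.Agent.N546.PN Filter Topology

variable {K : Type} [NontriviallyNormedField K]

/-- the derivative of the value -/
noncomputable def dv {n D : ℕ} (c : Mon n D → K) (x : Fin (n + 1) → K) :
    (Fin (n + 1) → K) →L[K] K :=
  ∑ m : Mon n D, c m • ∑ i, (∏ j ∈ Finset.univ.erase i, x j ^ (m.1 j)) •
    ((m.1 i • x i ^ (m.1 i - 1)) • ContinuousLinearMap.proj (R := K) (φ := fun _ => K) i)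

lemma hasStrict {n D : ℕ} (c : Mon n D → K) (x : Fin (n + 1) → K) :
    HasStrictFDerivAt (fun y => val c y) (dv c x) x := by
  unfold val dv
  refine HasStrictFDerivAt.fun_sum fun m _ => ?_
  refine HasStrictFDerivAt.const_mul ?_ (c m)
  refine HasStrictFDerivAt.finsetProd fun i _ => ?_
  exact (ContinuousLinearMap.proj (R := K) (φ := fun _ => K) i).hasStrictFDerivAt.pow (m.1 i)

lemma dv_apply {n D : ℕ} (c : Mon n D → K) (x v : Fin (n + 1) → K) :
    dv c x v = ∑ a, dval c a x * v a := by
  unfold dv dval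
  simp only [ContinuousLinearMap.sum_apply, ContinuousLinearMap.smul_apply,
    ContinuousLinearMap.proj_apply, smul_eq_mul, nsmul_eq_mul, Finset.sum_mul]
  rw [Finset.sum_comm]
  refine Finset.sum_congr rfl fun m _ => ?_
  rw [Finset.mul_sum]
  refine Finset.sum_congr rfl fun a _ => ?_
  have h : ∏ i, x i ^ (m.1 i - if i = a then 1 else 0) =
      x a ^ (m.1 a - 1) * ∏ j ∈ Finset.univ.erase a, x j ^ (m.1 j) := by
    rw [← Finset.mul_prod_erase Finset.univ _ (Finset.mem_univ a)]
    congr 1
    · simp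
    · refine Finset.prod_congr rfl fun j hj => ?_
      rw [if_neg (Finset.ne_of_mem_erase hj), Nat.sub_zero]
  rw [h]
  ring

theorem opn_ (K : Type) [NontriviallyNormedField K] [CompleteSpace K] : S_OPN K := by
  intro n ι _ _ e c x I hI V hV
  classical
  let Φ : (Fin (n + 1) → K) → ({k // k ∈ I} → K) := fun y k => val (c k.1) y
  let L : (Fin (n + 1) → K) →L[K] ({k // k ∈ I} → K) :=
    ContinuousLinearMap.pi fun k => dv (c k.1) x
  have hΦ : HasStrictFDerivAt Φ L x := by
    rw [hasStrictFDerivAt_pi']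
    intro k
    exact hasStrict (c k.1) x
  have hL : (L : (Fin (n + 1) → K) →ₗ[K] ({k // k ∈ I} → K)).range = ⊤ := by
    by_contra hne
    obtain ⟨f, hf0, hf⟩ := Submodule.exists_le_ker_of_lt_top _ (lt_top_iff_ne_top.2 hne)
    let l : ι → K := fun k => if h : k ∈ I then f (Pi.single ⟨k, h⟩ 1) else 0
    have hfl : ∀ w : {k // k ∈ I} → K, f w = ∑ k : {k // k ∈ I}, l k.1 * w k := by
      intro w
      have h1 : w = ∑ k : {k // k ∈ I}, w k • (Pi.single k (1 : K) : {k // k ∈ I} → K) := by
        funext j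
        simp [Finset.sum_apply, Pi.single_apply]
      conv_lhs => rw [h1]
      rw [map_sum]
      refine Finset.sum_congr rfl fun k _ => ?_
      rw [map_smul, smul_eq_mul, mul_comm]
      congr 1
      simp only [l, k.2, dif_pos]
    have hl0 : l ≠ 0 := by
      intro h
      apply hf0
      ext w
      simp [hfl, h]
    obtain ⟨a, ha⟩ := hI l hl0 (fun k hk => by
      by_contra h
      exact hk (by simp [l, h]))
    apply ha
    have h1 : f (L (Pi.single a 1)) = 0 := hf ⟨Pi.single a 1, rfl⟩
    rw [hfl] at h1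
    have h2 : ∀ k : {k // k ∈ I}, L (Pi.single a 1) k = dval (c k.1) a x := by
      intro k
      show dv (c k.1) x (Pi.single a 1) = _
      rw [dv_apply]
      simp [Pi.single_apply]
    simp only [h2] at h1
    rw [← h1]
    rw [← Finset.sum_subset (Finset.subset_univ I)]
    · exact (Finset.sum_coe_sort I (fun k => l k * dval (c k) a x)).symm
    · intro k _ hk
      simp [l, hk]
  have hmap := hΦ.map_nhds_eq_of_surj hL
  have hV' : Φ '' V ∈ 𝓝 (Φ x) := by
    rw [← hmap]
    exact image_mem_map hV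
  obtain ⟨δ, hδ, hball⟩ := Metric.mem_nhds_iff.1 hV'
  refine ⟨δ, hδ, fun w hw => ?_⟩
  have hw' : (fun k : {k // k ∈ I} => w k.1) ∈ Metric.ball (Φ x) δ := by
    rw [Metric.mem_ball, dist_pi_lt_iff hδ]
    intro k
    rw [dist_eq_norm]
    exact hw k.1 k.2
  obtain ⟨x', hx', hx2⟩ := hball hw'
  exact ⟨x', hx', fun k hk => congrFun hx2 ⟨k, hk⟩⟩

end Pool.Agent.N327.PN
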